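import Pool.Agent.H275R3.ShPack

/-!
# Asymptotic symplectic packing numbers of bounded domains can be smaller than one

For `n ≥ 2` let `D = {ρ < |z| < 1}` be a spherical shell in `ℝ²ⁿ` and let `X` be the open unit
ball of `ℝ²ⁿ`.  Every symplectic embedding of `λ D` into `X` encloses a hole of the same volume as
the hole of `λ D`, and the enclosed regions of disjoint embedded shells are disjoint.  Therefore
`p_{k,D}(X) ≤ 1 - ρ²ⁿ` for all `k`, and the asymptotic packing number is less than `1`.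
-/

open Set Metric MeasureTheory Filter
open scoped ContDiff Topology ENNReal Pointwise

noncomputable section

namespace Pool.Agent.Results.MP_6b8987_gt.ShellPacking

/-- `ℝ²ⁿ` with coordinates `(x₁, …, xₙ, y₁, …, yₙ)`. -/
abbrev Sp (n : ℕ) := EuclideanSpace ℝ (Fin n ⊕ Fin n)

/-- The standard symplectic form `ω₀ = ∑ dxᵢ ∧ dyᵢ`. -/
def omega {n : ℕ} (u v : Sp n) : ℝ :=
  ∑ i : Fin n, (u (Sum.inl i) * v (Sum.inr i) - u (Sum.inr i) * v (Sum.inl i))

/-- `φ` restricts to a symplectic embedding of the open set `D` into the open set `X`. -/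
structure IsSymplecticEmbedding {n : ℕ} (D X : Set (Sp n)) (φ : Sp n → Sp n) : Prop where
  smooth : ContDiffOn ℝ ∞ φ D
  injective : InjOn φ D
  mapsTo : MapsTo φ D X
  symplectic : ∀ z ∈ D, ∀ u v : Sp n, omega (fderiv ℝ φ z u) (fderiv ℝ φ z v) = omega u v

/-- `k` pairwise disjoint symplectically embedded copies of `l • D` fit into `X`. -/
def Packs {n : ℕ} (k : ℕ) (D X : Set (Sp n)) (l : ℝ) : Prop :=
  0 < l ∧ ∃ φ : Fin k → Sp n → Sp n, (∀ i, IsSymplecticEmbedding (l • D) X (φ i)) ∧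
    ∀ i j, i ≠ j → Disjoint (φ i '' (l • D)) (φ j '' (l • D))

/-- The packing number `p_{k,D}(X)` of an open set `X` of finite volume in `ℝ²ⁿ`. -/
def packingNumber {n : ℕ} (k : ℕ) (D X : Set (Sp n)) : ℝ≥0∞ :=
  ⨆ (l : ℝ) (_ : Packs k D X l), (k : ℝ≥0∞) * volume (l • D) / volume X

/-- The asymptotic packing number `p_D(X)`. -/
def asymptoticPackingNumber {n : ℕ} (D X : Set (Sp n)) : ℝ≥0∞ :=
  liminf (fun k : ℕ => packingNumber k D X) atTop

/-- The spherical shell. -/
def Shell (n : ℕ) (ρ : ℝ) : Set (Sp n) := {z | ρ < ‖z‖ ∧ ‖z‖ < 1}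

open Pool.Agent.H275R3.Sh

/-- the complex structure -/
def Jlin (n : ℕ) : Sp n →ₗ[ℝ] Sp n where
  toFun u := WithLp.toLp 2 (Sum.elim (fun i => -u (Sum.inr i)) (fun i => u (Sum.inl i)))
  map_add' u v := by
    ext i
    rcases i with i | i <;> simp; ring
  map_smul' c u := by
    ext i
    rcases i with i | i <;> simp

def J (n : ℕ) : Sp n →L[ℝ] Sp n := (Jlin n).toContinuousLinearMap

@[simp] lemma J_inl {n : ℕ} (u : Sp n) (i : Fin n) : J n u (Sum.inl i) = -u (Sum.inr i) := rfl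
@[simp] lemma J_inr {n : ℕ} (u : Sp n) (i : Fin n) : J n u (Sum.inr i) = u (Sum.inl i) := rfl

lemma inner_J {n : ℕ} (u v : Sp n) : inner ℝ (J n u) v = omega u v := by
  rw [PiLp.inner_apply, Fintype.sum_sum_type, omega, ← Finset.sum_add_distrib]
  refine Finset.sum_congr rfl fun i _ => ?_
  simp
  ring

lemma isJ (n : ℕ) : IsJ (J n) where
  sq x := by
    ext i
    rcases i with i | i <;> simp
  iso x y := by
    rw [inner_J, PiLp.inner_apply, Fintype.sum_sum_type, omega, ← Finset.sum_add_distrib]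
    refine Finset.sum_congr rfl fun i _ => ?_
    simp
    ring

lemma smul_shell {n : ℕ} {l ρ : ℝ} (hl : 0 < l) :
    l • Shell n ρ = shell (Sp n) (l * ρ) l := by
  ext z
  rw [mem_smul_set_iff_inv_smul_mem₀ hl.ne']
  simp only [Shell, shell, mem_ofPred_eq, norm_smul, norm_inv, Real.norm_eq_abs, abs_of_pos hl]
  rw [lt_inv_mul_iff₀ hl, inv_mul_lt_iff₀ hl, mul_one]

lemma finrank_Sp (n : ℕ) : Module.finrank ℝ (Sp n) = 2 * n := by
  rw [finrank_euclideanSpace, Fintype.card_sum, Fintype.card_fin]; ring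

lemma volume_shell {n : ℕ} (hn : 2 ≤ n) {ρ : ℝ} (h0 : 0 < ρ) (h1 : ρ < 1) :
    volume (Shell n ρ) = ENNReal.ofReal (1 - ρ ^ (2 * n)) * volume (ball (0 : Sp n) 1) := by
  have hnt : Nontrivial (Sp n) :=
    Module.nontrivial_of_finrank_pos (R := ℝ) (by rw [finrank_Sp]; omega)
  have e1 : Shell n ρ = ball (0 : Sp n) 1 \ closedBall 0 ρ := by
    ext z
    simp only [Shell, mem_ofPred_eq, Set.mem_sdiff, mem_ball_zero_iff, mem_closedBall_zero_iff, not_le]
    tauto
  have e2 : closedBall (0 : Sp n) ρ ⊆ ball 0 1 := closedBall_subset_ball h1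
  have hB : volume (ball (0 : Sp n) 1) ≠ ⊤ := measure_ball_lt_top.ne
  rw [e1, measure_sdiff e2 measurableSet_closedBall.nullMeasurableSet measure_closedBall_lt_top.ne,
    Measure.addHaar_closedBall volume (0 : Sp n) h0.le, finrank_Sp]
  have hρ : 0 ≤ ρ ^ (2 * n) := by positivity
  rw [ENNReal.ofReal_sub _ hρ, ENNReal.ofReal_one, ENNReal.sub_mul (fun _ _ => hB), one_mul]

/-- For every `n ≥ 2` and `0 < ρ < 1` the spherical shell `D = {ρ < |z| < 1} ⊆ ℝ²ⁿ` is a bounded
domain with `p_{k,D}(B²ⁿ(1)) ≤ 1 - ρ²ⁿ` for all `k`; in particular its asymptotic packing number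
in the unit ball is less than `1`. -/
theorem result : ∀ n : ℕ, 2 ≤ n → ∀ ρ : ℝ, 0 < ρ → ρ < 1 →
    IsOpen (Shell n ρ) ∧ IsConnected (Shell n ρ) ∧ Bornology.IsBounded (Shell n ρ) ∧
    IsOpen (ball (0 : Sp n) 1) ∧ volume (ball (0 : Sp n) 1) ≠ 0 ∧
    volume (ball (0 : Sp n) 1) ≠ ⊤ ∧
    (∀ k : ℕ, packingNumber k (Shell n ρ) (ball 0 1) ≤ ENNReal.ofReal (1 - ρ ^ (2 * n))) ∧
    asymptoticPackingNumber (Shell n ρ) (ball 0 1) ≤ ENNReal.ofReal (1 - ρ ^ (2 * n)) ∧
    asymptoticPackingNumber (Shell n ρ) (ball 0 1) < 1 := by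
  intro n hn ρ h0 h1
  have hdim : 3 ≤ Module.finrank ℝ (Sp n) := by rw [finrank_Sp]; omega
  have hB : volume (ball (0 : Sp n) 1) ≠ ⊤ := measure_ball_lt_top.ne
  have hB0 : volume (ball (0 : Sp n) 1) ≠ 0 := (measure_ball_pos volume (0 : Sp n) one_pos).ne'
  have hSh : Shell n ρ = shell (Sp n) ρ 1 := rfl
  have hρ : 0 < ρ ^ (2 * n) := by positivity
  have hρ1 : ρ ^ (2 * n) < 1 := pow_lt_one₀ h0.le h1 (by omega)
  have hk : ∀ k : ℕ, packingNumber k (Shell n ρ) (ball 0 1) ≤ ENNReal.ofReal (1 - ρ ^ (2 * n)) := by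
    intro k
    refine iSup₂_le fun l hl => ?_
    obtain ⟨hl0, φ, hφ, hd⟩ := hl
    have hb : (k : ℝ) * l ^ Module.finrank ℝ (Sp n) ≤ 1 := by
      refine packing_bound (isJ n) hdim (r₀ := l * ρ) (r₁ := l) (by positivity)
        (by nlinarith) φ ?_ ?_ ?_ ?_ ?_
      · intro i; rw [← smul_shell hl0]; exact (hφ i).smooth
      · intro i; rw [← smul_shell hl0]; exact (hφ i).injective
      · intro i z hz u v
        rw [← smul_shell hl0] at hz
        rw [inner_J, inner_J]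
        exact (hφ i).symplectic z hz u v
      · intro i; rw [← smul_shell hl0]; exact (hφ i).mapsTo
      · intro i j hij; rw [← smul_shell hl0]; exact hd i j hij
    rw [Measure.addHaar_smul, volume_shell hn h0 h1, abs_of_pos (by positivity)]
    apply ENNReal.div_le_of_le_mul
    have e1 : (k : ℝ≥0∞) * (ENNReal.ofReal (l ^ Module.finrank ℝ (Sp n)) *
        (ENNReal.ofReal (1 - ρ ^ (2 * n)) * volume (ball (0 : Sp n) 1))) =
        ENNReal.ofReal ((k : ℝ) * l ^ Module.finrank ℝ (Sp n)) *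
        (ENNReal.ofReal (1 - ρ ^ (2 * n)) * volume (ball (0 : Sp n) 1)) := by
      rw [ENNReal.ofReal_mul (by positivity), ENNReal.ofReal_natCast]; ring
    rw [e1]
    calc _ ≤ ENNReal.ofReal 1 * (ENNReal.ofReal (1 - ρ ^ (2 * n)) * volume (ball (0 : Sp n) 1)) := by
          gcongr
      _ = _ := by rw [ENNReal.ofReal_one, one_mul]
  have hasym : asymptoticPackingNumber (Shell n ρ) (ball 0 1) ≤ ENNReal.ofReal (1 - ρ ^ (2 * n)) := by
    have := liminf_le_liminf (f := atTop) (u := fun k : ℕ => packingNumber k (Shell n ρ) (ball 0 1))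
      (v := fun _ => ENNReal.ofReal (1 - ρ ^ (2 * n))) (Filter.Eventually.of_forall hk)
    rwa [liminf_const] at this
  refine ⟨isOpen_shell ρ 1, ⟨?_, isPreconnected_shell hdim h0⟩, ?_, isOpen_ball, hB0, hB, hk, hasym,
    hasym.trans_lt ?_⟩
  · obtain ⟨p, hp⟩ := exists_norm_eq' (V := Sp n) hdim (r := (ρ + 1) / 2) (by linarith)
    exact ⟨p, by constructor <;> rw [hp] <;> linarith⟩
  · refine (Metric.isBounded_ball (x := (0 : Sp n)) (r := 1)).subset ?_
    intro z hz
    rw [mem_ball_zero_iff]; exact hz.2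
  · rw [← ENNReal.ofReal_one]
    exact (ENNReal.ofReal_lt_ofReal_iff one_pos).2 (by linarith)

end Pool.Agent.Results.MP_6b8987_gt.ShellPacking
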